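import Pool.Agent.Q289.AC.Defs

/-! Project AC: basic facts on word length and avoiding paths. -/

open MeasureTheory ProbabilityTheory Filter Topology

namespace Q289.AC

section graph
variable {V : Type*} {X : SimpleGraph V} {A B : Set V} {u v w : V}

theorem Av.left (h : Av X A u v) : u ∉ A := h.1

theorem Av.right (h : Av X A u v) : v ∉ A := by
  obtain ⟨h0, h⟩ := h
  induction h with
  | refl => exact h0
  | tail _ h _ => exact h.2

theorem Av.refl (h : u ∉ A) : Av X A u u := ⟨h, .refl⟩

theorem Av.trans (h : Av X A u v) (h' : Av X A v w) : Av X A u w := ⟨h.1, h.2.trans h'.2⟩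

theorem Av.tail (h : Av X A u v) (h' : X.Adj v w) (hw : w ∉ A) : Av X A u w :=
  ⟨h.1, h.2.tail ⟨h', hw⟩⟩

theorem Av.symm (h : Av X A u v) : Av X A v u := by
  obtain ⟨h0, h⟩ := h
  induction h with
  | refl => exact ⟨h0, .refl⟩
  | tail h1 h2 ih =>
    rename_i b c
    have hb : b ∉ A := Av.right ⟨h0, h1⟩
    exact ⟨h2.2, (Relation.ReflTransGen.single ⟨h2.1.symm, hb⟩).trans ih.2⟩

theorem Av.mono (hAB : A ⊆ B) (h : Av X B u v) : Av X A u v :=
  ⟨fun hu => h.1 (hAB hu),
    Relation.ReflTransGen.mono (fun _ _ hh => ⟨hh.1, fun hb => hh.2 (hAB hb)⟩) _ _ h.2⟩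

theorem Av.reachable (h : Av X A u v) : X.Reachable u v := by
  obtain ⟨_, h⟩ := h
  induction h with
  | refl => exact SimpleGraph.Reachable.refl _
  | tail _ h2 ih => exact ih.trans h2.1.reachable

/-- a walk all of whose vertices avoid `A` -/
theorem av_of_walk (p : X.Walk u v) (h : ∀ z ∈ p.support, z ∉ A) : Av X A u v := by
  induction p with
  | nil => exact Av.refl (h _ (by simp))
  | cons hadj p ih =>
    rename_i a b c
    have hb : Av X A b c := ih fun z hz => h z (by simp [hz])
    have ha : a ∉ A := h a (by simp)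
    exact (Av.refl ha).tail hadj hb.1 |>.trans hb

theorem exists_walk_of_av (h : Av X A u v) : ∃ p : X.Walk u v, ∀ z ∈ p.support, z ∉ A := by
  obtain ⟨h0, h⟩ := h
  induction h with
  | refl => exact ⟨SimpleGraph.Walk.nil, by simpa using h0⟩
  | tail _ h2 ih =>
    obtain ⟨p, hp⟩ := ih
    refine ⟨p.concat h2.1, ?_⟩
    intro z hz
    rw [SimpleGraph.Walk.support_concat] at hz
    simp only [List.mem_append, List.mem_singleton] at hz
    rcases hz with hz | rfl
    · exact hp z hz
    · exact h2.2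

end graph

section group
variable {Γ : Type} [Group Γ] {S : Finset Γ}

theorem cay_adj (hS : Gen S) {g h : Γ} : (cay S).Adj g h ↔ g ≠ h ∧ g⁻¹ * h ∈ S := by
  unfold cay
  rw [SimpleGraph.fromRel_adj]
  constructor
  · rintro ⟨h1, h2 | h2⟩
    · exact ⟨h1, h2⟩
    · refine ⟨h1, ?_⟩
      have := hS.symm _ h2
      simpa using this
  · rintro ⟨h1, h2⟩
    exact ⟨h1, Or.inl h2⟩

theorem adj_mul_left (k g h : Γ) : (cay S).Adj (k * g) (k * h) ↔ (cay S).Adj g h := by
  unfold cay
  rw [SimpleGraph.fromRel_adj, SimpleGraph.fromRel_adj]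
  have e1 : (k * g)⁻¹ * (k * h) = g⁻¹ * h := by group
  have e2 : (k * h)⁻¹ * (k * g) = h⁻¹ * g := by group
  rw [e1, e2]
  simp

/-- left translation as an automorphism -/
def lt (S : Finset Γ) (k : Γ) : cay S ≃g cay S where
  toEquiv := Equiv.mulLeft k
  map_rel_iff' := adj_mul_left k _ _

theorem reach (hS : Gen S) (g h : Γ) : (cay S).Reachable g h := by
  have key : ∀ k : Γ, (cay S).Reachable 1 k := by
    intro k
    have hk : k ∈ Subgroup.closure (S : Set Γ) := by rw [hS.gen]; trivial
    induction hk using Subgroup.closure_induction_right with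
    | one => exact SimpleGraph.Reachable.refl _
    | mul_right x _ y hy ih =>
      by_cases hxy : x = x * y
      · rw [← hxy]; exact ih
      · exact ih.trans (((cay_adj hS).2 ⟨hxy, by simpa using hy⟩).reachable)
    | mul_inv_cancel x _ y hy ih =>
      by_cases hxy : x = x * y⁻¹
      · rw [← hxy]; exact ih
      · exact ih.trans (((cay_adj hS).2 ⟨hxy, by simpa using hS.symm _ hy⟩).reachable)
  exact (key g).symm.trans (key h)

theorem conn (hS : Gen S) : (cay S).Connected := by
  have : Nonempty Γ := ⟨1⟩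
  exact ⟨reach hS⟩

theorem exists_walk_mul (k : Γ) {g h : Γ} (p : (cay S).Walk g h) :
    ∃ p' : (cay S).Walk (k * g) (k * h), p'.length = p.length := by
  induction p with
  | nil => exact ⟨SimpleGraph.Walk.nil, rfl⟩
  | cons hadj p ih =>
    obtain ⟨p', hp'⟩ := ih
    exact ⟨SimpleGraph.Walk.cons ((adj_mul_left k _ _).2 hadj) p', by simp [hp']⟩

theorem dist_mul_left (k g h : Γ) : (cay S).dist (k * g) (k * h) = (cay S).dist g h := by
  have e : ∀ k g h : Γ, (cay S).edist (k * g) (k * h) ≤ (cay S).edist g h := by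
    intro k g h
    unfold SimpleGraph.edist
    refine le_iInf fun p => ?_
    obtain ⟨p', hp'⟩ := exists_walk_mul k p
    refine (iInf_le _ p').trans ?_
    rw [hp']
  have h1 := e k g h
  have h2 := e k⁻¹ (k * g) (k * h)
  simp only [inv_mul_cancel_left] at h2
  unfold SimpleGraph.dist
  rw [le_antisymm h1 h2]

theorem dist_eq (g h : Γ) : (cay S).dist g h = len S (g⁻¹ * h) := by
  unfold len
  have := dist_mul_left (S := S) g⁻¹ g h
  rw [inv_mul_cancel] at this
  exact this.symm

theorem len_one : len S (1 : Γ) = 0 := by simp [len]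

theorem len_inv (g : Γ) : len S g⁻¹ = len S g := by
  have h1 : (cay S).dist g 1 = len S g⁻¹ := by
    rw [dist_eq]
    simp
  rw [← h1, SimpleGraph.dist_comm]
  rfl

theorem len_mul_le (hS : Gen S) (g h : Γ) : len S (g * h) ≤ len S g + len S h := by
  have h1 : (cay S).dist g (g * h) = len S h := by
    rw [dist_eq]
    simp
  rw [← h1]
  exact (conn hS).dist_triangle

theorem len_eq_zero (hS : Gen S) {g : Γ} : len S g = 0 ↔ g = 1 := by
  unfold len
  rw [(conn hS).dist_eq_zero_iff, eq_comm]

/-- triangle inequality in the form used below -/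
theorem len_tri (hS : Gen S) (a b c : Γ) : len S (a⁻¹ * c) ≤ len S (a⁻¹ * b) + len S (b⁻¹ * c) := by
  have := len_mul_le hS (a⁻¹ * b) (b⁻¹ * c)
  have e : a⁻¹ * b * (b⁻¹ * c) = a⁻¹ * c := by group
  rwa [e] at this

theorem len_comm (a b : Γ) : len S (a⁻¹ * b) = len S (b⁻¹ * a) := by
  rw [← len_inv, mul_inv_rev, inv_inv]

theorem len_adj_le (hS : Gen S) {g h : Γ} (hadj : (cay S).Adj g h) : len S h ≤ len S g + 1 := by
  have h1 : (cay S).dist g h = 1 := SimpleGraph.dist_eq_one_iff_adj.2 hadj
  have h2 : len S h ≤ len S g + (cay S).dist g h := (conn hS).dist_triangle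
  omega

theorem len_mul_gen (hS : Gen S) {g s : Γ} (hs : s ∈ S) : len S (g * s) ≤ len S g + 1 := by
  by_cases h : g = g * s
  · rw [← h]; omega
  · exact len_adj_le hS ((cay_adj hS).2 ⟨h, by simpa using hs⟩)

theorem one_mem_Bl (R : ℕ) (g : Γ) : g ∈ Bl S R g := by simp [Bl, len_one]

theorem mem_Bl_one (R : ℕ) (g : Γ) : g ∈ Bl S R 1 ↔ len S g ≤ R := by simp [Bl]

theorem mem_Bl_mul (R : ℕ) (k g h : Γ) : k * h ∈ Bl S R (k * g) ↔ h ∈ Bl S R g := by
  simp only [Bl, Set.mem_ofPred_eq]
  have e : (k * g)⁻¹ * (k * h) = g⁻¹ * h := by group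
  rw [e]

/-- left invariance of the avoidance relation -/
theorem av_mul (R : ℕ) (k g u v : Γ) :
    Av (cay S) (Bl S R (k * g)) (k * u) (k * v) ↔ Av (cay S) (Bl S R g) u v := by
  have e : ∀ k g u v : Γ, Av (cay S) (Bl S R g) u v →
      Av (cay S) (Bl S R (k * g)) (k * u) (k * v) := by
    intro k g u v h
    refine ⟨fun hh => h.1 ((mem_Bl_mul R k g u).1 hh), ?_⟩
    obtain ⟨_, h⟩ := h
    induction h with
    | refl => exact .refl
    | tail _ h2 ih =>
      exact ih.tail ⟨(adj_mul_left k _ _).2 h2.1, fun hh => h2.2 ((mem_Bl_mul R k g _).1 hh)⟩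
  refine ⟨fun h => ?_, e k g u v⟩
  have := e k⁻¹ (k * g) (k * u) (k * v) h
  simpa using this

/-- a geodesic can be cut anywhere -/
theorem exists_split (hS : Gen S) (g : Γ) (k : ℕ) (hk : k ≤ len S g) :
    ∃ x y : Γ, g = x * y ∧ len S x = k ∧ len S y = len S g - k := by
  obtain ⟨p, hp⟩ := (reach hS 1 g).exists_walk_length_eq_dist
  have hp' : p.length = len S g := hp
  refine ⟨p.getVert k, (p.getVert k)⁻¹ * g, by group, ?_, ?_⟩
  all_goals
    have h1 : len S (p.getVert k) ≤ k := by
      have : (cay S).dist 1 (p.getVert k) ≤ (p.take k).length :=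
        SimpleGraph.dist_le (p.take k)
      rw [SimpleGraph.Walk.take_length] at this
      unfold len
      omega
    have h2 : len S ((p.getVert k)⁻¹ * g) ≤ len S g - k := by
      rw [← dist_eq]
      have : (cay S).dist (p.getVert k) g ≤ (p.drop k).length :=
        SimpleGraph.dist_le (p.drop k)
      rw [SimpleGraph.Walk.drop_length] at this
      omega
    have h3 : len S g ≤ len S (p.getVert k) + len S ((p.getVert k)⁻¹ * g) := by
      have := len_mul_le hS (p.getVert k) ((p.getVert k)⁻¹ * g)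
      simpa using this
    omega

/-- a geodesic from `u` to `v` avoids `A` if all its possible points avoid `A` -/
theorem av_of_geo (hS : Gen S) {A : Set Γ} {u v : Γ}
    (h : ∀ z : Γ, len S (u⁻¹ * z) + len S (z⁻¹ * v) = len S (u⁻¹ * v) → z ∉ A) :
    Av (cay S) A u v := by
  classical
  obtain ⟨p, hp⟩ := (reach hS u v).exists_walk_length_eq_dist
  refine av_of_walk p fun z hz => h z ?_
  have h1 : len S (u⁻¹ * z) ≤ (p.takeUntil z hz).length := by
    rw [← dist_eq]
    exact SimpleGraph.dist_le _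
  have h2 : len S (z⁻¹ * v) ≤ (p.dropUntil z hz).length := by
    rw [← dist_eq]
    exact SimpleGraph.dist_le _
  have h3 : (p.takeUntil z hz).length + (p.dropUntil z hz).length = p.length := by
    rw [← SimpleGraph.Walk.length_append, SimpleGraph.Walk.take_spec]
  have h4 := len_tri hS u z v
  rw [dist_eq] at hp
  omega

/-- a set separating `u` and `v` meets every geodesic -/
theorem exists_of_not_av (hS : Gen S) {A : Set Γ} {u v : Γ} (h : ¬ Av (cay S) A u v) :
    ∃ z ∈ A, len S (u⁻¹ * z) + len S (z⁻¹ * v) = len S (u⁻¹ * v) := by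
  by_contra hcon
  push Not at hcon
  exact h (av_of_geo hS fun z hz hzA => hcon z hzA hz)

theorem finite_ball (hS : Gen S) (n : ℕ) : {g : Γ | len S g ≤ n}.Finite := by
  induction n with
  | zero =>
    refine (Set.finite_singleton (1 : Γ)).subset fun g hg => ?_
    have : len S g = 0 := by simpa using hg
    exact (len_eq_zero hS).1 this
  | succ n ih =>
    have h2 : ((fun p : Γ × Γ => p.1 * p.2) '' ({g : Γ | len S g ≤ n} ×ˢ (S : Set Γ))).Finite :=
      (ih.prod S.finite_toSet).image _
    refine (ih.union h2).subset fun g hg => ?_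
    by_cases hg' : len S g ≤ n
    · exact Or.inl hg'
    · right
      have hgn : len S g = n + 1 := by
        simp only [Set.mem_ofPred_eq] at hg
        omega
      obtain ⟨x, y, hxy, hx, hy⟩ := exists_split hS g n (by omega)
      have hy1 : len S y = 1 := by omega
      refine ⟨(x, y), ⟨by simp [hx], ?_⟩, hxy.symm⟩
      have : (cay S).Adj 1 y := SimpleGraph.dist_eq_one_iff_adj.1 hy1
      have := ((cay_adj hS).1 this).2
      simpa using this

theorem finite_Bl (hS : Gen S) (R : ℕ) (g : Γ) : (Bl S R g).Finite := by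
  refine ((finite_ball hS R).image (fun h => g * h)).subset fun h hh => ?_
  exact ⟨g⁻¹ * h, hh, by group⟩

theorem mem_Bn (hS : Gen S) (n : ℕ) (g : Γ) : g ∈ Bn S n ↔ len S g ≤ n := by
  constructor
  · rintro ⟨p, hp⟩
    exact (SimpleGraph.dist_le p).trans hp
  · intro h
    obtain ⟨p, hp⟩ := (reach hS 1 g).exists_walk_length_eq_dist
    exact ⟨p, by rw [hp]; exact h⟩

end group

end Q289.AC
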