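import Mathlib

/-! Project AC (MP_ac3f41_pr): limits along balls of Cayley graphs with infinitely many ends
have critical percolation probability 1.  Definitions. -/

open MeasureTheory ProbabilityTheory Filter Topology

namespace Q289.AC

section graph
variable {V : Type*}

/-- vertices within distance `r` of `v` -/
def bs (X : SimpleGraph V) (v : V) (r : ℕ) : Set V := {u | ∃ p : X.Walk v u, p.length ≤ r}

theorem self_mem_bs (X : SimpleGraph V) (v : V) (r : ℕ) : v ∈ bs X v r :=
  ⟨SimpleGraph.Walk.nil, Nat.zero_le _⟩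

/-- the ball of radius `r` around `v` in `X`, rooted at `v`, is isomorphic to `(F, f)` -/
def BallIso (X : SimpleGraph V) (v : V) (r : ℕ) {N : ℕ} (F : SimpleGraph (Fin N)) (f : Fin N) :
    Prop :=
  ∃ φ : (X.induce (bs X v r)) ≃g F, φ ⟨v, self_mem_bs X v r⟩ = f

/-- `u` and `v` are connected by a path of `X` avoiding `A` -/
def Av (X : SimpleGraph V) (A : Set V) (u v : V) : Prop :=
  u ∉ A ∧ Relation.ReflTransGen (fun a b => X.Adj a b ∧ b ∉ A) u v

/-- `m` well separated cut sets with at most `c` vertices, all within distance `r` of `v`, such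
that the component of `v` after removal of each of them stays within distance `r` of `v` -/
def Cuts (X : SimpleGraph V) (v : V) (r m c : ℕ) : Prop :=
  ∃ A : Fin m → Set V, (∀ j, (A j).Finite ∧ (A j).ncard ≤ c) ∧ (∀ j, A j ⊆ bs X v r) ∧
    (∀ i j, i ≠ j → ∀ a ∈ A i, ∀ b ∈ A j, a ≠ b ∧ ¬ X.Adj a b) ∧
    ∀ j u, Av X (A j) v u → u ∈ bs X v r

end graph

/-- Bernoulli bond percolation on the component of `ρ` in `X`: the event that there is an
infinite cluster; the set `η` is the set of open edges -/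
def PercEv (X : SimpleGraph ℕ) (ρ : ℕ) : Set (Set (Sym2 ℕ)) :=
  {η | ∃ v, X.Reachable ρ v ∧ {u | (SimpleGraph.fromEdgeSet η).Reachable v u}.Infinite}

/-- the critical probability of the component of `ρ` in `X`: every edge of `X` is open with
probability `p`, independently -/
noncomputable def pc (X : SimpleGraph ℕ) (ρ : ℕ) : ℝ :=
  sInf {p : ℝ | ∃ hp : p ∈ unitInterval, 0 < setBernoulli X.edgeSet ⟨p, hp⟩ (PercEv X ρ)}

section group
variable {Γ : Type} [Group Γ]

/-- the Cayley graph: `g` is adjacent to `g s`, `s ∈ S`, `s ≠ 1` -/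
def cay (S : Finset Γ) : SimpleGraph Γ := SimpleGraph.fromRel (fun g h => g⁻¹ * h ∈ S)

/-- `S` is a symmetric generating set -/
structure Gen (S : Finset Γ) : Prop where
  symm : ∀ s ∈ S, s⁻¹ ∈ S
  gen : Subgroup.closure (S : Set Γ) = ⊤

/-- infinitely many ends: after removal of some finite set there are at least three infinite
components -/
def InfEnds (S : Finset Γ) : Prop :=
  ∃ K : Set Γ, K.Finite ∧ ∃ C : Fin 3 → ((cay S).induce Kᶜ).ConnectedComponent,
    Function.Injective C ∧ ∀ i, (C i).supp.Infinite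

/-- the ball of radius `n` around `1` -/
def Bn (S : Finset Γ) (n : ℕ) : Set Γ := bs (cay S) 1 n

/-- the fraction of the vertices of `B_n` whose `r`-ball in `B_n` is isomorphic to `(F,f)` -/
noncomputable def frac (S : Finset Γ) (n r : ℕ) {N : ℕ} (F : SimpleGraph (Fin N)) (f : Fin N) :
    ℝ :=
  (Nat.card {v : Bn S n // BallIso ((cay S).induce (Bn S n)) v r F f} : ℝ) / Nat.card (Bn S n)

/-- the random rooted graph `(X ω, ρ ω)` (the component of `ρ ω` in `X ω`) is a limit of the
uniformly rooted balls along some subsequence -/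
def IsLimit (S : Finset Γ) {Ω : Type} [MeasurableSpace Ω] (P : Measure Ω)
    (X : Ω → SimpleGraph ℕ) (ρ : Ω → ℕ) : Prop :=
  ∃ n : ℕ → ℕ, StrictMono n ∧ ∀ (r N : ℕ) (F : SimpleGraph (Fin N)) (f : Fin N),
    MeasurableSet {ω | BallIso (X ω) (ρ ω) r F f} ∧
    Tendsto (fun k => frac S (n k) r F f) atTop (𝓝 (P.real {ω | BallIso (X ω) (ρ ω) r F f}))

/-- word length -/
noncomputable def len (S : Finset Γ) (g : Γ) : ℕ := (cay S).dist 1 g

/-- closed ball of radius `R` around `g` -/
def Bl (S : Finset Γ) (R : ℕ) (g : Γ) : Set Γ := {h | len S (g⁻¹ * h) ≤ R}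

/-- three infinite components outside the ball of radius `R` around `1` -/
def Three (S : Finset Γ) (R : ℕ) : Prop :=
  ∃ t : Fin 3 → Γ, (∀ i, {v | Av (cay S) (Bl S R 1) (t i) v}.Infinite) ∧
    ∀ i j, i ≠ j → ¬ Av (cay S) (Bl S R 1) (t i) (t j)

end group

end Q289.AC
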