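import Pool.Agent.Q289.AC.Stm

/-! Project AC: assembly. -/

open MeasureTheory ProbabilityTheory Filter Topology

namespace Q289.AC

theorem infinite_of_ends {Γ : Type} [Group Γ] {S : Finset Γ} (h : InfEnds S) : Infinite Γ := by
  obtain ⟨K, _, C, _, hC⟩ := h
  have h0 := hC 0
  have : Infinite (C 0).supp := h0.to_subtype
  exact Infinite.of_injective (fun v : (C 0).supp => (v.1.1 : Γ)) (fun a b hab => by
    apply Subtype.ext
    apply Subtype.ext
    exact hab)

theorem exists_ballIso {V : Type} [Finite V] (X : SimpleGraph V) (v : V) (r : ℕ) :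
    ∃ (N : ℕ) (F : SimpleGraph (Fin N)) (f : Fin N), BallIso X v r F f := by
  have : Finite (bs X v r) := inferInstance
  obtain ⟨N, ⟨e⟩⟩ := Finite.exists_equiv_fin (bs X v r)
  refine ⟨N, (X.induce (bs X v r)).map e.toEmbedding, e ⟨v, self_mem_bs X v r⟩, ?_⟩
  exact ⟨SimpleGraph.Iso.map e _, rfl⟩

theorem finite_Bn {Γ : Type} [Group Γ] {S : Finset Γ} (hS : Gen S) (n : ℕ) : (Bn S n).Finite :=
  (finite_ball hS n).subset fun g hg => (mem_Bn hS n g).1 hg

theorem main (hkey : S_Key) (hcut : S_CutIso) (htr : S_Transfer) (hdeg : S_Degree)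
    (hperc : S_Perc) :
    ∀ (Γ : Type) [Group Γ] (S : Finset Γ), Gen S → InfEnds S →
    ∀ (Ω : Type) [MeasurableSpace Ω] (P : Measure Ω) [IsProbabilityMeasure P]
      (X : Ω → SimpleGraph ℕ) (ρ : Ω → ℕ), IsLimit S P X ρ →
    ∀ᵐ ω ∂P, pc (X ω) (ρ ω) = 1 := by
  intro Γ _ S hS hends Ω _ P _ X ρ hlim
  have hinf : Infinite Γ := infinite_of_ends hends
  obtain ⟨c, hc⟩ := hkey Γ S hS hends
  have h1 : ∀ m : ℕ, ∀ᵐ ω ∂P, ∃ r : ℕ, Cuts (X ω) (ρ ω) r m c := by
    intro m
    have h2 : ∀ ε : ℝ, 0 < ε → P {ω | ¬ ∃ r : ℕ, Cuts (X ω) (ρ ω) r m c} ≤ ENNReal.ofReal ε := by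
      intro ε hε
      obtain ⟨r, hr⟩ := hc m ε hε
      have h3 := htr Γ S hS hinf Ω P X ρ hlim (r + 1)
        (fun N F f => Cuts F f r m c) ε (by
          filter_upwards [hr] with n hn
          have hfin : Finite (Bn S n) := (finite_Bn hS n).to_subtype
          have hsum : Nat.card {v : Bn S n // Cuts ((cay S).induce (Bn S n)) v r m c}
              + Nat.card {v : Bn S n // ¬ Cuts ((cay S).induce (Bn S n)) v r m c}
              = Nat.card (Bn S n) := by
            classical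
            rw [← Nat.card_sum]
            exact Nat.card_congr (Equiv.sumCompl _)
          have hle : Nat.card {v : Bn S n // Cuts ((cay S).induce (Bn S n)) v r m c} ≤
              Nat.card {v : Bn S n // ∃ (N : ℕ) (F : SimpleGraph (Fin N)) (f : Fin N),
                Cuts F f r m c ∧ BallIso ((cay S).induce (Bn S n)) v (r + 1) F f} := by
            apply Nat.card_le_card_of_injective
              (fun v => ⟨v.1, by
                obtain ⟨N, F, f, hF⟩ := exists_ballIso ((cay S).induce (Bn S n)) v.1 (r + 1)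
                exact ⟨N, F, f, (hcut _ _ _ _ _ _ _ _ _ hF).1 v.2, hF⟩⟩)
            intro a b hab
            have := congrArg Subtype.val hab
            exact Subtype.ext this
          have hsum' : (Nat.card {v : Bn S n // Cuts ((cay S).induce (Bn S n)) v r m c} : ℝ)
              + Nat.card {v : Bn S n // ¬ Cuts ((cay S).induce (Bn S n)) v r m c}
              = Nat.card (Bn S n) := by exact_mod_cast hsum
          have hle' : (Nat.card {v : Bn S n // Cuts ((cay S).induce (Bn S n)) v r m c} : ℝ) ≤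
              Nat.card {v : Bn S n // ∃ (N : ℕ) (F : SimpleGraph (Fin N)) (f : Fin N),
                Cuts F f r m c ∧ BallIso ((cay S).induce (Bn S n)) v (r + 1) F f} := by
            exact_mod_cast hle
          linarith)
      obtain ⟨hm, hp⟩ := h3
      set E := {ω | ∃ (N : ℕ) (F : SimpleGraph (Fin N)) (f : Fin N), Cuts F f r m c ∧
        BallIso (X ω) (ρ ω) (r + 1) F f} with hE
      have h4 : {ω | ¬ ∃ r : ℕ, Cuts (X ω) (ρ ω) r m c} ⊆ Eᶜ := by
        intro ω hω hωE
        obtain ⟨N, F, f, hF, hb⟩ := hωE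
        exact hω ⟨r, (hcut _ _ _ _ _ _ _ _ _ hb).2 hF⟩
      refine (measure_mono h4).trans ?_
      have h5 : P.real Eᶜ = 1 - P.real E := probReal_compl_eq_one_sub hm
      have h6 : P.real Eᶜ ≤ ε := by rw [h5]; linarith
      have h7 : P Eᶜ = ENNReal.ofReal (P.real Eᶜ) := by
        rw [measureReal_def, ENNReal.ofReal_toReal (measure_ne_top _ _)]
      rw [h7]
      exact ENNReal.ofReal_le_ofReal h6
    rw [ae_iff]
    by_contra hne
    have hpos : 0 < P {ω | ¬ ∃ r : ℕ, Cuts (X ω) (ρ ω) r m c} := pos_iff_ne_zero.2 hne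
    have hlt : P {ω | ¬ ∃ r : ℕ, Cuts (X ω) (ρ ω) r m c} ≠ ⊤ := measure_ne_top _ _
    have h8 := h2 ((P {ω | ¬ ∃ r : ℕ, Cuts (X ω) (ρ ω) r m c}).toReal / 2)
      (by have := ENNReal.toReal_pos hne hlt; positivity)
    have h9 : (P {ω | ¬ ∃ r : ℕ, Cuts (X ω) (ρ ω) r m c}).toReal ≤
        (P {ω | ¬ ∃ r : ℕ, Cuts (X ω) (ρ ω) r m c}).toReal / 2 := by
      have := ENNReal.toReal_mono ENNReal.ofReal_ne_top h8
      rwa [ENNReal.toReal_ofReal (by positivity)] at this
    have := ENNReal.toReal_pos hne hlt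
    linarith
  filter_upwards [hdeg Γ S hS hinf Ω P X ρ hlim, ae_all_iff.2 h1] with ω hω1 hω2
  exact hperc (X ω) (ρ ω) (2 * S.card) c hω1.1 hω1.2 hω2

end Q289.AC
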