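import Pool.Agent.Q289.AC.Basic

/-! Project AC: statements of the lemma jobs. -/

open MeasureTheory ProbabilityTheory Filter Topology

namespace Q289.AC

/-- Job END. -/
def S_End : Prop := ∀ (Γ : Type) [Group Γ] (S : Finset Γ), Gen S → InfEnds S → ∃ R, Three S R

/-- Job RULE. -/
def S_Rule : Prop := ∀ (Γ : Type) [Group Γ] (S : Finset Γ), Gen S → ∀ (R : ℕ) (w v : Γ),
  ¬ Av (cay S) (Bl S R 1) w⁻¹ v →
  (len S w + len S v ≤ len S (w * v) + 2 * R) ∧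
  (2 * R < len S w → Av (cay S) (Bl S R 1) w (w * v))

/-- Job DEG: the degenerate configuration is impossible. -/
def S_Deg : Prop := ∀ (Γ : Type) [Group Γ] (S : Finset Γ), Gen S → ∀ (R D : ℕ) (s x y : Γ),
  2 * R ≤ D → D < len S x → D < len S y → ¬ Av (cay S) (Bl S R 1) x s →
  ¬ Av (cay S) (Bl S R 1) y s → ¬ Av (cay S) (Bl S R 1) x y →
  (∀ w : Γ, D < len S w → Av (cay S) (Bl S R 1) w s ∨ Av (cay S) (Bl S R 1) w⁻¹ s) → False

/-- Job TWO. -/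
def S_Two : Prop := ∀ (Γ : Type) [Group Γ] (S : Finset Γ), Gen S → ∀ R : ℕ, Three S R →
  ∀ (D : ℕ) (s t : Γ), ∃ w : Γ, D < len S w ∧ ¬ Av (cay S) (Bl S R 1) w s ∧
    ¬ Av (cay S) (Bl S R 1) w⁻¹ t

/-- Job INS: insertion of a separator. -/
def S_Ins : Prop := ∀ (Γ : Type) [Group Γ] (S : Finset Γ), Gen S → ∀ R : ℕ, Three S R →
  ∃ (F : Finset Γ) (w : Γ → Γ → Γ), ∀ a b : Γ, w a b ∈ F ∧
    ¬ Av (cay S) (Bl S R a) 1 (a * w a b * b)

/-- Job UNB: the spheres are unbounded. -/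
def S_Unb : Prop := ∀ (Γ : Type) [Group Γ] (S : Finset Γ), Gen S → ∀ R : ℕ, Three S R →
  ∀ M : ℕ, ∃ β : ℕ, M ≤ Set.ncard {g : Γ | len S g = β}

/-- Job MULT: bounded multiplicity of the insertion map. -/
def S_Mult : Prop := ∀ (Γ : Type) [Group Γ] (S : Finset Γ), Gen S → ∀ (R : ℕ) (F : Finset Γ)
  (w : Γ → Γ → Γ),
  (∀ a b : Γ, w a b ∈ F ∧ ¬ Av (cay S) (Bl S R a) 1 (a * w a b * b)) →
  ∃ C : ℕ, ∀ (β : ℕ) (u : Γ),
    {p : Γ × Γ | len S p.2 = β ∧ p.1 * w p.1 p.2 * p.2 = u}.Finite ∧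
    {p : Γ × Γ | len S p.2 = β ∧ p.1 * w p.1 p.2 * p.2 = u}.ncard ≤ C

/-- Job GROW: most vertices of a ball are at bounded distance from its boundary sphere. -/
def S_Grow : Prop := ∀ (Γ : Type) [Group Γ] (S : Finset Γ), Gen S → ∀ R : ℕ, Three S R →
  ∀ ε : ℝ, 0 < ε → ∃ t : ℕ, ∀ n : ℕ,
    (Set.ncard {g : Γ | len S g ≤ n} : ℝ) ≤ ε * Set.ncard {g : Γ | len S g ≤ n + t}

/-- Job COUNT: most vertices have a separator at a distance between `ρ` and `r`. -/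
def S_Count : Prop := ∀ (Γ : Type) [Group Γ] (S : Finset Γ), Gen S → ∀ R : ℕ, Three S R →
  ∀ ρ : ℕ, ∃ C : ℕ, ∀ r n : ℕ,
    Set.ncard {v : Γ | len S v ≤ n ∧ r < len S v ∧
      ∀ g : Γ, ρ ≤ len S (g⁻¹ * v) → len S (g⁻¹ * v) ≤ r → Av (cay S) (Bl S R g) 1 v} * r ≤
    C * Set.ncard {v : Γ | len S v ≤ n}

/-- Job KEY: most vertices of `B_n` have many cut sets. -/
def S_Key : Prop := ∀ (Γ : Type) [Group Γ] (S : Finset Γ), Gen S → InfEnds S →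
  ∃ c : ℕ, ∀ (m : ℕ) (ε : ℝ), 0 < ε → ∃ r : ℕ, ∀ᶠ n : ℕ in atTop,
    (Nat.card {v : Bn S n // ¬ Cuts ((cay S).induce (Bn S n)) v r m c} : ℝ) ≤
      ε * Nat.card (Bn S n)

/-- Job CUTISO: the property `Cuts` is visible in the ball. -/
def S_CutIso : Prop := ∀ (V : Type) (X : SimpleGraph V) (v : V) (r m c N : ℕ)
  (F : SimpleGraph (Fin N)) (f : Fin N), BallIso X v (r + 1) F f →
  (Cuts X v r m c ↔ Cuts F f r m c)

/-- Job TRANSFER: local properties with frequency at least `1 - ε` in the balls have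
probability at least `1 - ε` in the limit. -/
def S_Transfer : Prop := ∀ (Γ : Type) [Group Γ] (S : Finset Γ), Gen S → Infinite Γ →
  ∀ (Ω : Type) [MeasurableSpace Ω] (P : Measure Ω) [IsProbabilityMeasure P]
    (X : Ω → SimpleGraph ℕ) (ρ : Ω → ℕ), IsLimit S P X ρ →
  ∀ (r : ℕ) (Q : (N : ℕ) → SimpleGraph (Fin N) → Fin N → Prop) (ε : ℝ),
    (∀ᶠ n : ℕ in atTop, (1 - ε) * Nat.card (Bn S n) ≤
      Nat.card {v : Bn S n // ∃ (N : ℕ) (F : SimpleGraph (Fin N)) (f : Fin N), Q N F f ∧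
        BallIso ((cay S).induce (Bn S n)) v r F f}) →
    MeasurableSet {ω | ∃ (N : ℕ) (F : SimpleGraph (Fin N)) (f : Fin N), Q N F f ∧
      BallIso (X ω) (ρ ω) r F f} ∧
    1 - ε ≤ P.real {ω | ∃ (N : ℕ) (F : SimpleGraph (Fin N)) (f : Fin N), Q N F f ∧
      BallIso (X ω) (ρ ω) r F f}

/-- Job DEGREE: the limit is almost surely infinite with degrees at most `2 |S|`. -/
def S_Degree : Prop := ∀ (Γ : Type) [Group Γ] (S : Finset Γ), Gen S → Infinite Γ →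
  ∀ (Ω : Type) [MeasurableSpace Ω] (P : Measure Ω) [IsProbabilityMeasure P]
    (X : Ω → SimpleGraph ℕ) (ρ : Ω → ℕ), IsLimit S P X ρ →
  ∀ᵐ ω ∂P, {v | (X ω).Reachable (ρ ω) v}.Infinite ∧
    ∀ v, (X ω).Reachable (ρ ω) v → ((X ω).neighborSet v).Finite ∧
      ((X ω).neighborSet v).ncard ≤ 2 * S.card

/-- Job PERC: percolation on a graph with many cut sets. -/
def S_Perc : Prop := ∀ (X : SimpleGraph ℕ) (ρ Δ c : ℕ),
  {v | X.Reachable ρ v}.Infinite →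
  (∀ v, X.Reachable ρ v → (X.neighborSet v).Finite ∧ (X.neighborSet v).ncard ≤ Δ) →
  (∀ m : ℕ, ∃ r : ℕ, Cuts X ρ r m c) → pc X ρ = 1

end Q289.AC
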